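import Mathlib
import Pool.Agent.H2.VH1
import Pool.Agent.H2.VH2

namespace Pool.Agent.Results.MP_1d6f1e_gt.Four

open Set

/-- Euclidean `n`-space. -/
abbrev E (n : ℕ) := EuclideanSpace ℝ (Fin n)

/-- The visual hull: the points `x` such that `x + m` meets `S` for every one-dimensional
linear subspace `m`. -/
def visualHull {n : ℕ} (S : Set (E n)) : Set (E n) :=
  {x | ∀ m : Submodule ℝ (E n), Module.finrank ℝ m = 1 → ∃ v ∈ m, x + v ∈ S}

/-- A body: a bounded convex set with nonempty interior. -/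
def IsBody {n : ℕ} (S : Set (E n)) : Prop :=
  Bornology.IsBounded S ∧ Convex ℝ S ∧ (interior S).Nonempty

/-- Any two of the sets lie in the two different open half-spaces of an affine hyperplane. -/
def StrictlySeparated {n k : ℕ} (S : Fin k → Set (E n)) : Prop :=
  ∀ i j, i ≠ j → ∃ (f : E n →ₗ[ℝ] ℝ) (c : ℝ), f ≠ 0 ∧ (∀ x ∈ S i, f x < c) ∧ ∀ x ∈ S j, c < f x

theorem mem_vh {n : ℕ} {S : Set (E n)} {x : E n} :
    x ∈ visualHull S ↔ ∀ v : E n, v ≠ 0 → ∃ t : ℝ, x + t • v ∈ S := by
  constructor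
  · intro h v hv
    obtain ⟨w, hw, hx⟩ := h (Submodule.span ℝ {v}) (finrank_span_singleton hv)
    obtain ⟨t, rfl⟩ := Submodule.mem_span_singleton.1 hw
    exact ⟨t, hx⟩
  · intro h m hm
    have hne : m ≠ ⊥ := by rintro rfl; simp at hm
    obtain ⟨v, hv, hv0⟩ := Submodule.exists_mem_ne_zero_of_ne_bot hne
    obtain ⟨t, ht⟩ := h v hv0
    exact ⟨t • v, m.smul_mem t hv, ht⟩

theorem sub_vh {n : ℕ} {S : Set (E n)} : S ⊆ visualHull S := fun x hx =>
  mem_vh.2 fun v _ => ⟨0, by simpa using hx⟩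

theorem cc_ne {X : Type*} [TopologicalSpace X] {U : Set X} (hU : IsClopen U) {p q : X}
    (hp : p ∈ U) (hq : q ∉ U) : (p : ConnectedComponents X) ≠ q := by
  intro h
  rw [ConnectedComponents.coe_eq_coe] at h
  have := hU.connectedComponent_subset hp
  rw [h] at this
  exact hq (this mem_connectedComponent)

theorem cc_eq {X : Type*} [TopologicalSpace X] {P A : Set X} (hA : IsPreconnected A) (hAP : A ⊆ P)
    {p q : P} (hp : p.1 ∈ A) (hq : q.1 ∈ A) : (p : ConnectedComponents P) = q := by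
  rw [ConnectedComponents.coe_eq_coe']
  have h1 : IsPreconnected ((↑) ⁻¹' A : Set P) := by
    rw [← Topology.IsInducing.subtypeVal.isPreconnected_image]
    rwa [Subtype.image_preimage_coe, inter_eq_right.2 hAP]
  exact h1.subset_connectedComponent hq hp

theorem compact_case (n : ℕ) (hn : 1 ≤ n) (S : Fin n → Set (E n)) (hb : ∀ i, IsBody (S i))
    (hc : ∀ i, IsClosed (S i)) (hs : StrictlySeparated S) :
    ENat.card (ConnectedComponents (visualHull (⋃ i, S i))) = n := by
  classical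
  have hK : ∀ i, IsCompact (S i) := fun i => Metric.isCompact_of_isClosed_isBounded (hc i) (hb i).1
  have hne : ∀ i, (S i).Nonempty := fun i => (hb i).2.2.mono interior_subset
  choose! f c _ hf1 hf2 using hs
  set P := visualHull (⋃ i, S i) with hP
  let R : Fin n → Set (E n) := fun i => {x | ∀ j, j ≠ i → f i j x < c i j ∧ c j i < f j i x}
  have hfc : ∀ i j, Continuous (f i j) := fun i j => (f i j).continuous_of_finiteDimensional
  have hRo : ∀ i, IsOpen (R i) := by
    intro i
    simp only [R, setOf_forall]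
    refine isOpen_iInter_of_finite fun j => isOpen_iInter_of_finite fun _ => ?_
    exact (isOpen_lt (hfc i j) continuous_const).inter (isOpen_lt continuous_const (hfc j i))
  have hSR : ∀ i, S i ⊆ R i := fun i x hx j hj => ⟨hf1 i j hj.symm x hx, hf2 j i hj x hx⟩
  have hRd : ∀ i j x, x ∈ R i → x ∈ R j → i = j := by
    intro i j x hi hj
    by_contra hij
    exact lt_asymm (hi j (Ne.symm hij)).1 (hj i hij).2
  have hSP : ∀ i, S i ⊆ P := fun i => (subset_iUnion S i).trans sub_vh
  have main : ∀ x ∈ P, ∃ i, x ∈ R i ∧ ∃ p ∈ S i, segment ℝ x p ⊆ P := by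
    intro x hx
    by_cases h0 : ∃ i, x ∈ S i
    · obtain ⟨i, hi⟩ := h0
      exact ⟨i, hSR i hi, x, hi, by simpa using hx⟩
    push Not at h0
    have hx' := mem_vh.1 hx
    obtain ⟨v, hv⟩ := Pool.Agent.H2.VH.ray_compact (E := E n) (by simp) hn
      (fun i => (fun p => x + p) ⁻¹' S i)
      (fun i => (Homeomorph.addLeft x).isCompact_preimage.2 (hK i))
      (fun i => (hb i).2.1.translate_preimage_right x)
      (fun i => by obtain ⟨p, hp⟩ := hne i; exact ⟨p - x, by simpa using hp⟩)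
      (fun i => by simpa using h0 i)
      (fun v hv => by
        obtain ⟨t, ht⟩ := hx' v hv
        obtain ⟨i, hi⟩ := mem_iUnion.1 ht
        exact ⟨i, t, hi⟩)
    choose a ha hav using hv
    haveI : Nonempty (Fin n) := ⟨⟨0, hn⟩⟩
    obtain ⟨i, hi⟩ := Finite.exists_min a
    refine ⟨i, fun j hj => ⟨?_, ?_⟩, x + a i • v, hav i, ?_⟩
    · have h1 := hf1 i j hj.symm _ (hav i)
      have h2 := hf2 i j hj.symm _ (hav j)
      simp only [map_add, map_smul, smul_eq_mul] at h1 h2
      have h3 : 0 < f i j v := by by_contra hh; nlinarith [hi j]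
      nlinarith [ha i]
    · have h1 := hf2 j i hj _ (hav i)
      have h2 := hf1 j i hj _ (hav j)
      simp only [map_add, map_smul, smul_eq_mul] at h1 h2
      have h3 : f j i v < 0 := by by_contra hh; nlinarith [hi j]
      nlinarith [ha i]
    · rintro y ⟨α, β, hα, hβ, hαβ, rfl⟩
      refine mem_vh.2 fun w hw => ?_
      obtain ⟨t, ht⟩ := hx' w hw
      obtain ⟨k, hk⟩ := mem_iUnion.1 ht
      have hθ0 : 0 ≤ β * a i / a k := by have := ha i; have := ha k; positivity
      have hθ1 : β * a i / a k ≤ 1 := by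
        rw [div_le_one (ha k)]; nlinarith [hi k, ha i]
      have hq := (hb k).2.1 (hav k) hk hθ0 (sub_nonneg.2 hθ1) (by ring)
      refine ⟨(1 - β * a i / a k) * t, mem_iUnion.2 ⟨k, ?_⟩⟩
      convert hq using 1
      have hak := (ha k).ne'
      obtain rfl : α = 1 - β := by linarith
      ext l
      simp only [PiLp.add_apply, PiLp.smul_apply, smul_eq_mul]
      field_simp
      ring
  choose s hs using hne
  let g : Fin n → ConnectedComponents P := fun i => ((⟨s i, hSP i (hs i)⟩ : P) : ConnectedComponents P)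
  have hcl : ∀ i, IsClopen ((↑) ⁻¹' R i : Set P) := by
    intro i
    refine ⟨?_, (hRo i).preimage continuous_subtype_val⟩
    rw [← isOpen_compl_iff]
    have : ((↑) ⁻¹' R i : Set P)ᶜ = ⋃ j ∈ {j | j ≠ i}, (↑) ⁻¹' R j := by
      ext x
      simp only [mem_compl_iff, mem_preimage, mem_iUnion, mem_setOf_eq, exists_prop]
      constructor
      · intro h
        obtain ⟨j, hj, -⟩ := main x.1 x.2
        exact ⟨j, fun e => h (e ▸ hj), hj⟩
      · rintro ⟨j, hj, h⟩ h'
        exact hj (hRd _ _ _ h h')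
    rw [this]
    exact isOpen_biUnion fun j _ => (hRo j).preimage continuous_subtype_val
  have hg : Function.Bijective g := by
    constructor
    · intro i j hij
      by_contra hne
      exact cc_ne (hcl i) (p := ⟨s i, hSP i (hs i)⟩) (q := ⟨s j, hSP j (hs j)⟩) (hSR i (hs i))
        (fun h => hne (hRd _ _ _ h (hSR j (hs j)))) hij
    · intro z
      obtain ⟨x, rfl⟩ := ConnectedComponents.surjective_coe z
      obtain ⟨i, -, p, hp, hseg⟩ := main x.1 x.2
      refine ⟨i, ?_⟩
      have h1 : ((⟨s i, hSP i (hs i)⟩ : P) : ConnectedComponents P) = (⟨p, hSP i hp⟩ : P) :=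
        cc_eq (hb i).2.1.isPreconnected (hSP i) (hs i) hp
      have h2 : ((⟨p, hSP i hp⟩ : P) : ConnectedComponents P) = x :=
        cc_eq (convex_segment x.1 p).isPreconnected hseg (right_mem_segment _ _ _)
          (left_mem_segment _ _ _)
      exact h1.trans h2
  rw [← ENat.card_congr (Equiv.ofBijective g hg)]
  simp

open Pool.Agent.H2.VH in
theorem bdd {A : Set (E 3)} (h : ∀ p ∈ A, ∀ i, |p i| ≤ 1000) : Bornology.IsBounded A := by
  rw [isBounded_iff_forall_norm_le]
  refine ⟨2000, fun p hp => ?_⟩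
  rw [EuclideanSpace.norm_eq, Real.sqrt_le_left (by norm_num), Fin.sum_univ_three]
  have h0 := h p hp 0
  have h1 := h p hp 1
  have h2 := h p hp 2
  simp only [Real.norm_eq_abs]
  nlinarith [abs_nonneg (p 0), abs_nonneg (p 1), abs_nonneg (p 2)]

/-- the linear functional with given coefficients -/
noncomputable def L (a b c : ℝ) : E 3 →ₗ[ℝ] ℝ where
  toFun p := a * p 0 + b * p 1 + c * p 2
  map_add' x y := by simp only [PiLp.add_apply]; ring
  map_smul' r x := by simp only [PiLp.smul_apply, smul_eq_mul, RingHom.id_apply]; ring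

theorem L_ne (a b c : ℝ) (hb : b ≠ 0) : L a b c ≠ 0 := by
  intro h
  have := congrArg (fun g : E 3 →ₗ[ℝ] ℝ => g !₂[0, 1, 0]) h
  simp [L] at this
  exact hb this

theorem int_ne {A : Set (E 3)} (a b c : ℝ)
    (h : ∀ p : E 3, |p 0 - a| < 1 / 10 → |p 1 - b| < 1 / 10 → |p 2 - c| < 1 / 10 → p ∈ A) :
    (interior A).Nonempty := by
  refine ⟨!₂[a, b, c], mem_interior.2 ⟨{p : E 3 | |p 0 - a| < 1 / 10 ∧ |p 1 - b| < 1 / 10 ∧
    |p 2 - c| < 1 / 10}, fun p hp => h p hp.1 hp.2.1 hp.2.2, ?_, by simp⟩⟩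
  simp only [setOf_and]
  exact (isOpen_lt (by fun_prop) continuous_const).inter
    ((isOpen_lt (by fun_prop) continuous_const).inter (isOpen_lt (by fun_prop) continuous_const))

open Pool.Agent.H2.VH in
theorem counter : ∃ S : Fin 3 → Set (E 3), (∀ i, IsBody (S i)) ∧ StrictlySeparated S ∧
    4 ≤ ENat.card (ConnectedComponents (visualHull (⋃ i, S i))) := by
  refine ⟨![S1, S2, S3], ?_, ?_, ?_⟩
  · intro i
    fin_cases i
    · refine ⟨bdd ?_, conv1, int_ne 5 5 5 ?_⟩
      · rintro p ⟨a1, a2, a3, a4, a5, a6⟩ i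
        fin_cases i <;> simp only [Fin.zero_eta, Fin.mk_one, Fin.reduceFinMk] <;>
          rw [abs_le] <;> constructor <;> linarith
      · intro p h0 h1 h2
        rw [abs_lt] at h0 h1 h2
        refine ⟨?_, ?_, ?_, Or.inl ?_, ?_, ?_⟩ <;> linarith [h0.1, h0.2, h1.1, h1.2, h2.1, h2.2]
    · refine ⟨bdd ?_, conv2, int_ne 0 (1 / 2) (-1 / 2) ?_⟩
      · rintro p ⟨a1, a2, a3, a4, a5, a6⟩ i
        fin_cases i <;> simp only [Fin.zero_eta, Fin.mk_one, Fin.reduceFinMk] <;>
          rw [abs_le] <;> constructor <;> linarith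
      · intro p h0 h1 h2
        rw [abs_lt] at h0 h1 h2
        refine ⟨?_, ?_, ?_, Or.inl ?_, ?_, ?_⟩ <;> linarith [h0.1, h0.2, h1.1, h1.2, h2.1, h2.2]
    · refine ⟨bdd ?_, conv3, int_ne (-50) 0 50 ?_⟩
      · rintro p ⟨a1, a2, a3, a4, a5, a6⟩ i
        fin_cases i <;> simp only [Fin.zero_eta, Fin.mk_one, Fin.reduceFinMk] <;>
          rw [abs_le] <;> constructor <;> linarith
      · intro p h0 h1 h2
        rw [abs_lt] at h0 h1 h2
        refine ⟨?_, ?_, ?_, Or.inl ?_, ?_, ?_⟩ <;> linarith [h0.1, h0.2, h1.1, h1.2, h2.1, h2.2]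
  · have e1 : ∀ p ∈ S1, 10 ≤ p 0 + p 1 + p 2 ∧ -2 * p 0 + p 1 + p 2 ≤ 20 := by
      rintro p ⟨a1, a2, a3, a4, a5, a6⟩; constructor <;> linarith
    have e2 : ∀ p ∈ S2, p 0 + p 1 + p 2 ≤ 4 ∧ -2 * p 0 + p 1 + p 2 ≤ 20 := by
      rintro p ⟨a1, a2, a3, a4, a5, a6⟩; constructor <;> linarith
    have e3 : ∀ p ∈ S3, 100 ≤ -2 * p 0 + p 1 + p 2 := by
      rintro p ⟨a1, a2, a3, a4, a5, a6⟩; linarith
    intro i j hij
    fin_cases i <;> fin_cases j
    · exact absurd rfl hij
    · refine ⟨L (-1) (-1) (-1), -7, L_ne _ _ _ (by norm_num), fun x hx => ?_, fun x hx => ?_⟩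
      · have := e1 x hx; show -1 * x 0 + -1 * x 1 + -1 * x 2 < -7; linarith [this.1]
      · have := e2 x hx; show -7 < -1 * x 0 + -1 * x 1 + -1 * x 2; linarith [this.1]
    · refine ⟨L (-2) 1 1, 50, L_ne _ _ _ (by norm_num), fun x hx => ?_, fun x hx => ?_⟩
      · have := e1 x hx; show -2 * x 0 + 1 * x 1 + 1 * x 2 < 50; linarith [this.2]
      · have := e3 x hx; show 50 < -2 * x 0 + 1 * x 1 + 1 * x 2; linarith
    · refine ⟨L 1 1 1, 7, L_ne _ _ _ (by norm_num), fun x hx => ?_, fun x hx => ?_⟩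
      · have := e2 x hx; show 1 * x 0 + 1 * x 1 + 1 * x 2 < 7; linarith [this.1]
      · have := e1 x hx; show 7 < 1 * x 0 + 1 * x 1 + 1 * x 2; linarith [this.1]
    · exact absurd rfl hij
    · refine ⟨L (-2) 1 1, 50, L_ne _ _ _ (by norm_num), fun x hx => ?_, fun x hx => ?_⟩
      · have := e2 x hx; show -2 * x 0 + 1 * x 1 + 1 * x 2 < 50; linarith [this.2]
      · have := e3 x hx; show 50 < -2 * x 0 + 1 * x 1 + 1 * x 2; linarith
    · refine ⟨L 2 (-1) (-1), -50, L_ne _ _ _ (by norm_num), fun x hx => ?_, fun x hx => ?_⟩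
      · have := e3 x hx; show 2 * x 0 + -1 * x 1 + -1 * x 2 < -50; linarith
      · have := e1 x hx; show -50 < 2 * x 0 + -1 * x 1 + -1 * x 2; linarith [this.2]
    · refine ⟨L 2 (-1) (-1), -50, L_ne _ _ _ (by norm_num), fun x hx => ?_, fun x hx => ?_⟩
      · have := e3 x hx; show 2 * x 0 + -1 * x 1 + -1 * x 2 < -50; linarith
      · have := e2 x hx; show -50 < 2 * x 0 + -1 * x 1 + -1 * x 2; linarith [this.2]
    · exact absurd rfl hij
  · set P := visualHull (⋃ i, (![S1, S2, S3] : Fin 3 → Set (E 3)) i) with hP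
    have hH : ∀ x, x ∈ P ↔ Hull x := by
      intro x
      rw [hP, mem_vh]
      simp [Hull, Fin.exists_fin_succ]
    have m1 : (!₂[5, 5, 5] : E 3) ∈ P := (hH _).2 fun v _ => ⟨0, Or.inl (by
      simp [S1]; norm_num)⟩
    have m2 : (!₂[0, 1 / 2, -1 / 2] : E 3) ∈ P := (hH _).2 fun v _ => ⟨0, Or.inr (Or.inl (by
      simp [S2]; norm_num))⟩
    have m3 : (!₂[-50, 0, 50] : E 3) ∈ P := (hH _).2 fun v _ => ⟨0, Or.inr (Or.inr (by
      simp [S3]; norm_num))⟩
    have m0 : (0 : E 3) ∈ P := (hH _).2 hull_zero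
    have cA : IsClopen {x : P | x.1 = 0} := by
      refine ⟨isClosed_eq continuous_subtype_val continuous_const, ?_⟩
      have : {x : P | x.1 = 0} =
          {x : P | |x.1 0| < 1 / 10 ∧ |x.1 1| < 1 / 10 ∧ |x.1 2| < 1 / 10} := by
        ext x
        constructor
        · intro h
          have h' : x.1 = 0 := h
          simp [h']
        · intro h
          exact isolated ((hH _).1 x.2) h.1 h.2.1 h.2.2
      rw [this]
      simp only [setOf_and]
      exact (isOpen_lt (by fun_prop) continuous_const).inter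
        ((isOpen_lt (by fun_prop) continuous_const).inter
          (isOpen_lt (by fun_prop) continuous_const))
    have cB : IsClopen {x : P | 50 < -2 * x.1 0 + x.1 1 + x.1 2} := by
      refine ⟨?_, isOpen_lt continuous_const (by fun_prop)⟩
      have : {x : P | 50 < -2 * x.1 0 + x.1 1 + x.1 2} =
          {x : P | 50 ≤ -2 * x.1 0 + x.1 1 + x.1 2} := by
        ext x
        simp only [mem_setOf_eq]
        exact ⟨fun h => le_of_lt h, fun h => lt_of_le_of_ne h (not_g3 ((hH _).1 x.2)).symm⟩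
      rw [this]
      exact isClosed_le continuous_const (by fun_prop)
    have cC : IsClopen {x : P | -2 * x.1 0 + x.1 1 + x.1 2 < 50 ∧ 7 < x.1 0 + x.1 1 + x.1 2} := by
      refine ⟨?_, by
        simp only [setOf_and]
        exact (isOpen_lt (by fun_prop) continuous_const).inter
          (isOpen_lt continuous_const (by fun_prop))⟩
      have : {x : P | -2 * x.1 0 + x.1 1 + x.1 2 < 50 ∧ 7 < x.1 0 + x.1 1 + x.1 2} =
          {x : P | -2 * x.1 0 + x.1 1 + x.1 2 ≤ 50 ∧ 7 ≤ x.1 0 + x.1 1 + x.1 2} := by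
        ext x
        simp only [mem_setOf_eq]
        refine ⟨fun h => ⟨le_of_lt h.1, le_of_lt h.2⟩, fun h => ?_⟩
        have h1 := lt_of_le_of_ne h.1 (not_g3 ((hH _).1 x.2))
        exact ⟨h1, lt_of_le_of_ne h.2 (not_g1 ((hH _).1 x.2) h1).symm⟩
      rw [this]
      simp only [setOf_and]
      exact (isClosed_le (by fun_prop) continuous_const).inter
        (isClosed_le continuous_const (by fun_prop))
    let q0 : P := ⟨_, m0⟩
    let q1 : P := ⟨_, m1⟩
    let q2 : P := ⟨_, m2⟩
    let q3 : P := ⟨_, m3⟩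
    have n01 : (q0 : ConnectedComponents P) ≠ q1 := cc_ne cA rfl (vec_ne _ _ _ (by norm_num))
    have n02 : (q0 : ConnectedComponents P) ≠ q2 := cc_ne cA rfl (vec_ne _ _ _ (by norm_num))
    have n03 : (q0 : ConnectedComponents P) ≠ q3 := cc_ne cA rfl (vec_ne _ _ _ (by norm_num))
    have n31 : (q3 : ConnectedComponents P) ≠ q1 :=
      cc_ne cB (by simp [q3]) (by simp [q1]; norm_num)
    have n32 : (q3 : ConnectedComponents P) ≠ q2 :=
      cc_ne cB (by simp [q3]) (by simp [q2]; norm_num)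
    have n12 : (q1 : ConnectedComponents P) ≠ q2 :=
      cc_ne cC (by simp [q1]; norm_num) (by simp [q2]; norm_num)
    have hinj : Function.Injective
        (![(q0 : ConnectedComponents P), q1, q2, q3] : Fin 4 → ConnectedComponents P) := by
      intro i j hij
      fin_cases i <;> fin_cases j <;> simp at hij ⊢ <;> simp_all
    simpa using ENat.card_le_card_of_injective hinj

theorem result :
    (∃ S : Fin 3 → Set (E 3), (∀ i, IsBody (S i)) ∧ StrictlySeparated S ∧
      4 ≤ ENat.card (ConnectedComponents (visualHull (⋃ i, S i)))) ∧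
    ∀ (n : ℕ), 1 ≤ n → ∀ S : Fin n → Set (E n), (∀ i, IsBody (S i)) → (∀ i, IsClosed (S i)) →
      StrictlySeparated S → ENat.card (ConnectedComponents (visualHull (⋃ i, S i))) = n :=
  ⟨counter, fun n hn S hb hc hs => compact_case n hn S hb hc hs⟩

end Pool.Agent.Results.MP_1d6f1e_gt.Four
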